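import Pool.Agent.W528.HJ.Stm
import Pool.Agent.W318.HF.PB
import Pool.Agent.W177.HD.PF

/-!
# HJ-PW: the point count of a cyclic covering of a product of curves
-/

set_option autoImplicit false

namespace Pool.Agent.W691.HJ.PW

open Finset Polynomial Pool.Agent.W528.HA Pool.Agent.W528.HC Pool.Agent.W528.HD Pool.Agent.W528.HJ
open Pool.Agent.W125.HC.PC Pool.Agent.W318.HF.PB

section

variable {L : Type} [Field L] [Fintype L]

theorem trip (P Q R : L → Prop) [DecidablePred P] [DecidablePred Q] [DecidablePred R]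
    {E : Type} [Field E] :
    ∑ w : L, ∑ u : L, ∑ y : L, (if P w ∧ Q u ∧ R y then (1 : E) else 0) =
      ((Set.ncard {y : L | R y} : ℕ) : E) * ((Set.ncard {w : L | P w} : ℕ) : E) *
        ((Set.ncard {u : L | Q u} : ℕ) : E) := by
  rw [ncard_eq P, ncard_eq Q, ncard_eq R]
  have h1 : ∀ w u y : L, (if P w ∧ Q u ∧ R y then (1 : E) else 0) =
      (if P w then (1 : E) else 0) * ((if Q u then (1 : E) else 0) *
        (if R y then (1 : E) else 0)) := by
    intro w u y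
    by_cases a : P w <;> by_cases b : Q u <;> by_cases c : R y <;> simp [a, b, c]
  simp only [h1]
  have h2 : ∀ w : L, ∑ u : L, ∑ y : L, (if P w then (1 : E) else 0) *
      ((if Q u then (1 : E) else 0) * (if R y then (1 : E) else 0)) =
      (if P w then (1 : E) else 0) * ((∑ u : L, if Q u then (1 : E) else 0) *
        ∑ y : L, if R y then (1 : E) else 0) := by
    intro w
    rw [sum_mul_sum, mul_sum]
    exact sum_congr rfl fun u _ => (mul_sum _ _ _).symm
  rw [sum_congr rfl fun w _ => h2 w, ← sum_mul]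
  ring

theorem cov_eq {n e r m m₁ m₂ : ℕ} (f : Fin m → L[X]) (a : Fin m → ℕ) (g : Fin m₁ → L)
    (d : Fin m₁ → ℕ) (h : Fin m₂ → L[X]) (b : Fin m₂ → ℕ) {E : Type} [Field E] :
    ((covPts L n e r f a g d h b : ℕ) : E) = ∑ x : L, ∑ t : L,
      ((Set.ncard {y : L | y ^ n = ∏ i, (x - (f i).eval t) ^ a i} : ℕ) : E) *
      ((Set.ncard {w : L | w ^ e = ∏ i, (x - g i) ^ d i} : ℕ) : E) *
      ((Set.ncard {u : L | u ^ r = ∏ l, ((h l).eval t) ^ b l} : ℕ) : E) := by
  classical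
  unfold covPts
  have h0 : {v : (L × L) × (L × L) × L | v.1.2 ^ e = ∏ i, (v.1.1 - g i) ^ d i ∧
      v.2.1.2 ^ r = ∏ l, ((h l).eval v.2.1.1) ^ b l ∧
      v.2.2 ^ n = ∏ i, (v.1.1 - (f i).eval v.2.1.1) ^ a i} =
      ((univ.filter (fun v : (L × L) × (L × L) × L => v.1.2 ^ e = ∏ i, (v.1.1 - g i) ^ d i ∧
      v.2.1.2 ^ r = ∏ l, ((h l).eval v.2.1.1) ^ b l ∧
      v.2.2 ^ n = ∏ i, (v.1.1 - (f i).eval v.2.1.1) ^ a i) : Finset ((L × L) × (L × L) × L)) :
        Set ((L × L) × (L × L) × L)) := by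
    ext y; simp
  rw [h0, Set.ncard_coe_finset, card_filter, Fintype.sum_prod_type, Fintype.sum_prod_type]
  push_cast
  refine sum_congr rfl fun x _ => ?_
  have h1 : ∀ w : L, (∑ q : (L × L) × L, if w ^ e = ∏ i, (x - g i) ^ d i ∧
      q.1.2 ^ r = ∏ l, ((h l).eval q.1.1) ^ b l ∧
      q.2 ^ n = ∏ i, (x - (f i).eval q.1.1) ^ a i then (1 : E) else 0) =
      ∑ t : L, ∑ u : L, ∑ y : L, if w ^ e = ∏ i, (x - g i) ^ d i ∧
      u ^ r = ∏ l, ((h l).eval t) ^ b l ∧
      y ^ n = ∏ i, (x - (f i).eval t) ^ a i then (1 : E) else 0 := by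
    intro w
    rw [Fintype.sum_prod_type, Fintype.sum_prod_type]
  refine (sum_congr rfl fun w _ => h1 w).trans ?_
  rw [sum_comm]
  refine sum_congr rfl fun t _ => ?_
  exact trip (fun w : L => w ^ e = ∏ i, (x - g i) ^ d i)
    (fun u : L => u ^ r = ∏ l, ((h l).eval t) ^ b l)
    (fun y : L => y ^ n = ∏ i, (x - (f i).eval t) ^ a i)

theorem line_eq {e m₁ : ℕ} (g : Fin m₁ → L) (d : Fin m₁ → ℕ) {E : Type} [Field E] :
    ((linePts L e g d : ℕ) : E) = ∑ x : L,
      ((Set.ncard {w : L | w ^ e = ∏ i, (x - g i) ^ d i} : ℕ) : E) := by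
  classical
  unfold linePts
  have h : {v : L × L | v.2 ^ e = ∏ i, (v.1 - g i) ^ d i} =
      ((univ.filter (fun v : L × L => v.2 ^ e = ∏ i, (v.1 - g i) ^ d i) : Finset (L × L)) :
        Set (L × L)) := by
    ext y; simp
  rw [h, Set.ncard_coe_finset, card_filter, Fintype.sum_prod_type]
  push_cast
  refine sum_congr rfl fun t _ => ?_
  rw [ncard_eq]

/-- the reduction of the exponents in a product -/
theorem red {p r N k : ℕ} {z : L} (hp : 0 < p) (hr : 0 < r) (hN : N = p * r)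
    (hz : IsPrimitiveRoot z N) (y : Fin k → L) (c : Fin k → ℕ) (hc : ∀ i, (c i).Coprime p)
    {s : ℕ} (hs : s < p) :
    (∏ i, y i ^ (r * (s * c i % p))) ^ ((Fintype.card L - 1) / N) =
      ((∏ i, y i ^ c i) ^ (r * s)) ^ ((Fintype.card L - 1) / N) := by
  rcases Nat.eq_zero_or_pos s with h0 | h0
  · subst h0
    simp
  · rw [← prod_pow, ← prod_pow, ← prod_pow]
    refine prod_congr rfl fun i _ => ?_
    have hnd : ¬ p ∣ s * c i := by
      intro hd
      have h := (hc i).symm.dvd_of_dvd_mul_right hd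
      have := Nat.le_of_dvd h0 h
      omega
    subst hN
    rw [pow_mod hp hr hz hnd, ← pow_mul (y i) (c i)]
    congr 2
    ring

end

theorem gen (hPR : PR) (hMU : MU) (L : Type) [Field L] [Fintype L] (n e r : ℕ) (z : L)
    (hn : 2 ≤ n) (he : 0 < e) (hr : 0 < r) (hz : IsPrimitiveRoot z (n * e * r)) (E : Type)
    [Field E] [CharZero E] (μ : E) (hμ : IsPrimitiveRoot μ (n * e * r)) (m m₁ m₂ : ℕ)
    (f : Fin m → L[X]) (a : Fin m → ℕ) (g : Fin m₁ → L) (d : Fin m₁ → ℕ) (h : Fin m₂ → L[X])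
    (b : Fin m₂ → ℕ) (ha : ∀ i, 0 < a i ∧ (a i).Coprime n) (hd : ∀ i, 0 < d i ∧ (d i).Coprime e)
    (hb : ∀ l, 0 < b l ∧ (b l).Coprime r) :
    ∑ j ∈ Ico 1 n, ∑ s₁ ∈ range e, ∑ s₂ ∈ range r, covSum L E n e r f a g d h b z μ j s₁ s₂
      = (covPts L n e r f a g d h b : E) - (linePts L e g d : E) * (basePts L r h b : E) := by
  classical
  have hn0 : 0 < n := by omega
  have her : 0 < e * r := Nat.mul_pos he hr
  have hnr : 0 < n * r := Nat.mul_pos hn0 hr
  have hne : 0 < n * e := Nat.mul_pos hn0 he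
  have hNa : n * e * r = n * (e * r) := mul_assoc n e r
  have hNb : n * e * r = e * (n * r) := by ring
  have hNc : n * e * r = r * (n * e) := by ring
  have hN : 0 < n * e * r := Nat.mul_pos hne hr
  have hN2 : 2 ≤ n * e * r := by
    calc 2 ≤ n := hn
      _ = n * 1 := (mul_one n).symm
      _ ≤ n * (e * r) := Nat.mul_le_mul_left n her
      _ = n * e * r := hNa.symm
  have hmu := hMU L (n * e * r) z hN2 hz E μ hμ.pow_eq_one
  obtain ⟨F, hF⟩ : ∃ F : L → L → L, ∀ x t, F x t = ∏ i, (x - (f i).eval t) ^ a i :=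
    ⟨_, fun _ _ => rfl⟩
  obtain ⟨G, hG⟩ : ∃ G : L → L, ∀ x, G x = ∏ i, (x - g i) ^ d i := ⟨_, fun _ => rfl⟩
  obtain ⟨H, hH⟩ : ∃ H : L → L, ∀ t, H t = ∏ l, ((h l).eval t) ^ b l := ⟨_, fun _ => rfl⟩
  obtain ⟨W, hW⟩ : ∃ W : L → E, ∀ v, W v =
      kv (n * e * r) z μ (v ^ ((Fintype.card L - 1) / (n * e * r))) := ⟨_, fun _ => rfl⟩
  have hWm : ∀ v w : L, W (v * w) = W v * W w := by
    intro v w
    rw [hW, hW, hW]
    exact hmu v w
  have h1 : ∀ j ∈ Ico 1 n, ∀ s₁ ∈ range e, ∀ s₂ ∈ range r, ∀ x t : L,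
      W ((∏ i, (x - (f i).eval t) ^ (e * r * (j * a i % n)))
        * (∏ i, (x - g i) ^ (n * r * (s₁ * d i % e)))
        * ∏ l, ((h l).eval t) ^ (n * e * (s₂ * b l % r))) =
      W (F x t ^ (e * r * j)) * W (G x ^ (n * r * s₁)) * W (H t ^ (n * e * s₂)) := by
    intro j hj s₁ hs₁ s₂ hs₂ x t
    rw [mem_Ico] at hj
    rw [mem_range] at hs₁ hs₂
    rw [hWm, hWm]
    refine congrArg₂ (· * ·) (congrArg₂ (· * ·) ?_ ?_) ?_
    · rw [hW, hW, hF]
      congr 1
      exact red hn0 her hNa hz (fun i => x - (f i).eval t) a (fun i => (ha i).2) hj.2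
    · rw [hW, hW, hG]
      congr 1
      exact red he hnr hNb hz (fun i => x - g i) d (fun i => (hd i).2) hs₁
    · rw [hW, hW, hH]
      congr 1
      exact red hr hne hNc hz (fun l => (h l).eval t) b (fun l => (hb l).2) hs₂
  have h2 : ∀ v : L, ∑ j ∈ Ico 1 n, W (v ^ (e * r * j)) =
      ((Set.ncard {y : L | y ^ n = v} : ℕ) : E) - 1 := by
    intro v
    have := hPR L (n * e * r) n (e * r) z hNa hz hn0 her E μ hμ v
    rw [this]
    simp only [hW]
    ring
  have h3 : ∀ v : L, ∑ s ∈ range e, W (v ^ (n * r * s)) =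
      ((Set.ncard {y : L | y ^ e = v} : ℕ) : E) := by
    intro v
    have := hPR L (n * e * r) e (n * r) z hNb hz he hnr E μ hμ v
    rw [this, range_eq_Ico, sum_eq_sum_Ico_succ_bot he]
    simp only [hW]
    congr 1
    rw [mul_zero, pow_zero, one_pow, kv_one hN hz]
  have h3' : ∀ v : L, ∑ s ∈ range r, W (v ^ (n * e * s)) =
      ((Set.ncard {y : L | y ^ r = v} : ℕ) : E) := by
    intro v
    have := hPR L (n * e * r) r (n * e) z hNc hz hr hne E μ hμ v
    rw [this, range_eq_Ico, sum_eq_sum_Ico_succ_bot hr]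
    simp only [hW]
    congr 1
    rw [mul_zero, pow_zero, one_pow, kv_one hN hz]
  have e1 : ∑ j ∈ Ico 1 n, ∑ s₁ ∈ range e, ∑ s₂ ∈ range r,
      covSum L E n e r f a g d h b z μ j s₁ s₂ =
      ∑ j ∈ Ico 1 n, ∑ s₁ ∈ range e, ∑ s₂ ∈ range r, ∑ x : L, ∑ t : L,
        W (F x t ^ (e * r * j)) * W (G x ^ (n * r * s₁)) * W (H t ^ (n * e * s₂)) := by
    refine sum_congr rfl fun j hj => sum_congr rfl fun s₁ hs₁ => sum_congr rfl fun s₂ hs₂ => ?_
    unfold covSum
    refine sum_congr rfl fun x _ => sum_congr rfl fun t _ => ?_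
    rw [← h1 j hj s₁ hs₁ s₂ hs₂ x t, hW]
  rw [e1]
  have e2 := swap5 (L := L) (Ico 1 n) (range e) (range r) (fun x t j => W (F x t ^ (e * r * j)))
    (fun x s => W (G x ^ (n * r * s))) (fun t s => W (H t ^ (n * e * s)))
  refine e2.trans ?_
  have e3 : ∑ x : L, ∑ t : L, (∑ j ∈ Ico 1 n, W (F x t ^ (e * r * j))) *
      (∑ s ∈ range e, W (G x ^ (n * r * s))) * ∑ s ∈ range r, W (H t ^ (n * e * s)) =
      ∑ x : L, ∑ t : L, (((Set.ncard {y : L | y ^ n = F x t} : ℕ) : E) - 1) *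
        ((Set.ncard {y : L | y ^ e = G x} : ℕ) : E) * ((Set.ncard {y : L | y ^ r = H t} : ℕ) : E) :=
    sum_congr rfl fun x _ => sum_congr rfl fun t _ => by rw [h2, h3, h3']
  refine e3.trans ?_
  rw [cov_eq, line_eq, Pool.Agent.W177.HD.PF.base_eq, sum_mul_sum, ← sum_sub_distrib]
  refine sum_congr rfl fun x _ => ?_
  rw [← sum_sub_distrib]
  refine sum_congr rfl fun t _ => ?_
  rw [← hF, ← hG, ← hH]
  ring

theorem main : Pool.Agent.W528.HC.PR → Pool.Agent.W528.HC.MU → Pool.Agent.W528.HJ.PW := by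
  intro hPR hMU L _ _ n e r z hn he hr hz E _ _ μ hμ m m₁ m₂ f a g d h b ha hd hb
  rcases Nat.lt_or_ge 1 n with h1 | h1
  · exact gen hPR hMU L n e r z h1 he hr hz E μ hμ m m₁ m₂ f a g d h b ha hd hb
  · have h2 : n = 1 := by omega
    subst h2
    classical
    rw [Finset.Ico_self, Finset.sum_empty, cov_eq, line_eq, Pool.Agent.W177.HD.PF.base_eq,
      sum_mul_sum]
    have e8 : ∀ c : L, Set.ncard {y : L | y ^ 1 = c} = 1 := by
      intro c
      have : {y : L | y ^ 1 = c} = {c} := by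
        ext y
        simp
      rw [this, Set.ncard_singleton]
    simp only [e8, Nat.cast_one, one_mul, sub_self]

end Pool.Agent.W691.HJ.PW

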